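import Pool.Agent.helper1.SOL.SpecN

set_option autoImplicit false

/-! Row sol:GLC (helper8). -/

namespace Pool.Agent.SOL

open Pool.Agent.helper54.SOG Finset

open scoped BigOperators

theorem GLC_two {n κ : ℕ} {x : Vec n} (hx : x ∈ TD n κ 0) {i : Fin n} (hi : x i ≠ 0) :
    |x i| = 2 := by
  obtain ⟨h1, -, h3⟩ := hx
  have h4 : |x i| ≠ 1 := by
    intro h
    unfold cnt at h3
    rw [Finset.card_eq_zero] at h3
    have : i ∈ (univ.filter fun i => |x i| = 1) := by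
      rw [Finset.mem_filter]
      exact ⟨Finset.mem_univ i, h⟩
    rw [h3] at this
    exact absurd this (Finset.notMem_empty i)
  have h5 := h1 i
  have h6 : 0 < |x i| := abs_pos.2 hi
  omega

theorem GLC_sg {z : ℤ} (hz : |z| = 2) : sg z * 2 = z := by
  unfold sg
  split_ifs with h
  · rw [abs_of_neg h] at hz
    omega
  · rw [abs_of_nonneg (not_lt.1 h)] at hz
    omega

theorem GLC_sg1 (z : ℤ) : |sg z * 1| = 1 := by
  unfold sg
  split_ifs <;> simp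

theorem GLC_mem (hBTY : BTY_stmt) {n k t s : ℕ} {y : Vec n} (hy : y ∈ TD n t s)
    (h1 : 2 * t + s = 2 * k) : y ∈ VC n k := by
  obtain ⟨h3, h4, h5⟩ := hy
  rw [hBTY.2.1 n k y, h4, h5]
  exact ⟨h3, h1⟩

theorem GLC_pat1 (r c21 c01 c00 : ℕ) (hr : 1 ≤ r) (p q : ℤ) :
    (if (2 : ℤ) = p ∧ (2 : ℤ) = q then 1 else 0) + (if (2 : ℤ) = p ∧ (0 : ℤ) = q then 1 else 0) ≤
      pat r r c21 0 0 0 0 r c01 c00 p q := by
  unfold pat
  split_ifs <;> omega

theorem GLC_pat2 (r c21 c01 c00 : ℕ) (hr : 1 ≤ r) (h0 : 1 ≤ c00) (p q : ℤ) :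
    (if (2 : ℤ) = p ∧ (2 : ℤ) = q then 1 else 0) + (if (2 : ℤ) = p ∧ (0 : ℤ) = q then 1 else 0) +
      (if (0 : ℤ) = p ∧ (0 : ℤ) = q then 1 else 0) ≤ pat r r c21 0 0 0 0 r c01 c00 p q := by
  unfold pat
  split_ifs <;> omega

theorem GLC_pat3 (r c21 c01 c00 : ℕ) (hr : 1 ≤ r) (h0 : 1 ≤ c21) (h1 : 1 ≤ c01) (p q : ℤ) :
    (if (2 : ℤ) = p ∧ (2 : ℤ) = q then 1 else 0) + (if (2 : ℤ) = p ∧ (1 : ℤ) = q then 1 else 0) +
      (if (0 : ℤ) = p ∧ (1 : ℤ) = q then 1 else 0) ≤ pat r r c21 0 0 0 0 r c01 c00 p q := by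
  unfold pat
  split_ifs <;> omega

theorem GLC (hCNT : CNT_stmt) (hPAT : PAT_stmt) (hBTY : BTY_stmt) (hGLZ : GLZ_stmt) :
    GLC_stmt := by
  intro n k M _ _ f hk hkn hf1 hf2
  have hsy := (hBTY.2.2.2.2.2.2.1 n k (by omega)).2
  have hcl := hBTY.2.2.2.2.2.1 n k
  refine hGLZ n k (VC n k) M f (fun x hx => (hcl x hx).1)
    (fun x hx => (hcl x hx).2) hsy.neg hf1 hf2 ?_ ?_ ?_
  · intro x hx
    exact GLC_mem hBTY hx (by omega)
  · intro x hx i j hij hi hj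
    have hi2 := GLC_two hx hi
    have hj2 := GLC_two hx hj
    have h0 := hCNT.1 _ x hx.1
    rw [hx.2.1, hx.2.2] at h0
    rcases Nat.even_or_odd' k with ⟨r, hr | hr⟩
    · obtain ⟨y, h1, h2, h3, h4⟩ := hPAT.2.1 n x r r 0 0 0 0 0 r 0 (n - 3 * r) hx.1
        (by rw [hx.2.1]; omega) (by rw [hx.2.2]) (by omega) i j 2 0 hij (by
          intro p q
          rw [hi2, hj2]
          exact GLC_pat1 r _ _ _ (by omega) p q)
      refine ⟨y, GLC_mem hBTY h1 (by omega), GLC_mem hBTY h2 (by omega), ?_, ?_⟩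
      · rw [h3, GLC_sg hi2]
      · rw [h4, mul_zero]
    · obtain ⟨y, h1, h2, h3, h4⟩ := hPAT.2.1 n x r r 1 0 0 0 0 r 1 (n - 3 * r - 2) hx.1
        (by rw [hx.2.1]; omega) (by rw [hx.2.2]) (by omega) i j 2 0 hij (by
          intro p q
          rw [hi2, hj2]
          exact GLC_pat1 r _ _ _ (by omega) p q)
      refine ⟨y, GLC_mem hBTY h1 (by omega), GLC_mem hBTY h2 (by omega), ?_, ?_⟩
      · rw [h3, GLC_sg hi2]
      · rw [h4, mul_zero]
  · intro x hx i a b hia hib hab hi ha hb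
    have hi2 := GLC_two hx hi
    have ha2 := GLC_two hx ha
    have hb0 : |x b| = 0 := by rw [hb, abs_zero]
    have h0 := hCNT.1 _ x hx.1
    rw [hx.2.1, hx.2.2] at h0
    rcases Nat.even_or_odd' k with ⟨r, hr | hr⟩
    · obtain ⟨y, h1, h2, h3, h4, h5⟩ := hPAT.1 n x r r 0 0 0 0 0 r 0 (n - 3 * r) hx.1
        (by rw [hx.2.1]; omega) (by rw [hx.2.2]) (by omega) i a b 2 0 0 hia hib hab (by
          intro p q
          rw [hi2, ha2, hb0]
          exact GLC_pat2 r _ _ _ (by omega) (by omega) p q)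
      refine ⟨y, GLC_mem hBTY h1 (by omega), GLC_mem hBTY h2 (by omega), ?_, ?_⟩
      · rw [h3, GLC_sg hi2]
      · rw [h4, h5, mul_zero, mul_zero]
    · obtain ⟨y, h1, h2, h3, h4, h5⟩ := hPAT.1 n x r r 1 0 0 0 0 r 1 (n - 3 * r - 2) hx.1
        (by rw [hx.2.1]; omega) (by rw [hx.2.2]) (by omega) i a b 2 1 1 hia hib hab (by
          intro p q
          rw [hi2, ha2, hb0]
          exact GLC_pat3 r _ _ _ (by omega) (by omega) (by omega) p q)
      refine ⟨y, GLC_mem hBTY h1 (by omega), GLC_mem hBTY h2 (by omega), ?_, ?_⟩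
      · rw [h3, GLC_sg hi2]
      · rw [h4, h5, GLC_sg1, GLC_sg1]

end Pool.Agent.SOL
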