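import Pool.Agent.helper20.SOL.SpecP

set_option autoImplicit false

/-! Row sol:HUL (helper8). -/

namespace Pool.Agent.SOL

open Finset

open scoped BigOperators

theorem HUL_deg {n : ℕ} (V : Set (Vec n)) (g g' : Vec n → Vec n) (h1 : ∀ x, g' (g x) = x)
    (h2 : ∀ x, g (g' x) = x) (h3 : ∀ x y, g (x - y) = g x - g y) (h4 : ∀ x ∈ V, g x ∈ V)
    (h5 : ∀ x ∈ V, g' x ∈ V) (z : Vec n) : (NB V (g z)).ncard = (NB V z).ncard := by
  have hinj : Function.Injective g := Function.LeftInverse.injective h1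
  have h6 : NB V (g z) = g '' NB V z := by
    ext y
    constructor
    · rintro ⟨hy1, hy2⟩
      refine ⟨g' y, ⟨h5 y hy1, ?_⟩, h2 y⟩
      have h7 : g (z - g' y) = g z - y := by rw [h3, h2]
      have h8 : g' (g z - y) = z - g' y := by rw [← h7, h1]
      rw [← h8]
      exact h5 _ hy2
    · rintro ⟨x, ⟨hx1, hx2⟩, rfl⟩
      refine ⟨h4 x hx1, ?_⟩
      rw [← h3]
      exact h4 _ hx2
  rw [h6]
  exact Set.ncard_image_of_injective _ hinj

theorem HUL_perm {n : ℕ} (V : Set (Vec n)) (hV : ∀ (σ : Equiv.Perm (Fin n)), ∀ x ∈ V,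
    (fun l => x (σ l)) ∈ V) (σ : Equiv.Perm (Fin n)) (z : Vec n) :
    (NB V (fun l => z (σ l))).ncard = (NB V z).ncard := by
  refine HUL_deg V (fun x l => x (σ l)) (fun x l => x (σ.symm l)) ?_ ?_ ?_ (hV σ)
    (hV σ.symm) z
  · intro x
    funext l
    simp
  · intro x
    funext l
    simp
  · intro x y
    rfl

theorem HUL_flp {n : ℕ} (V : Set (Vec n)) (i : Fin n) (hV : ∀ x ∈ V, flp i x ∈ V) (z : Vec n) :
    (NB V (flp i z)).ncard = (NB V z).ncard := by
  have h1 : ∀ x : Vec n, flp i (flp i x) = x := by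
    intro x
    funext j
    unfold flp
    by_cases h : j = i
    · simp [h]
    · simp [h]
  refine HUL_deg V (flp i) (flp i) h1 h1 ?_ hV hV z
  intro x y
  funext j
  simp only [Pi.sub_apply]
  unfold flp
  by_cases h : j = i
  · simp only [if_pos h, Pi.sub_apply]
    ring
  · simp only [if_neg h, Pi.sub_apply]

theorem HUL_ne {n : ℕ} {z : Vec n} (h : 0 < dp z z) : ∃ i, z i ≠ 0 := by
  by_contra hcon
  push Not at hcon
  have : dp z z = 0 := by
    unfold dp
    apply Finset.sum_eq_zero
    intro i _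
    rw [hcon i, mul_zero]
  omega

theorem HUL_sum {n : ℕ} (v : Fin n → ℝ) : v = ∑ j, v j • (Pi.single j (1 : ℝ) : Fin n → ℝ) := by
  funext i
  rw [Finset.sum_apply]
  simp only [Pi.smul_apply, smul_eq_mul]
  rw [Finset.sum_eq_single i]
  · rw [Pi.single_eq_same, mul_one]
  · intro j _ hj
    rw [Pi.single_eq_of_ne (Ne.symm hj), mul_zero]
  · intro h
    exact absurd (Finset.mem_univ i) h

theorem HUL_one {n : ℕ} {z : Vec n} (h1 : ∀ i, |z i| ≤ 1) (h2 : ∑ i, z i = 0) (h3 : 0 < dp z z) :
    ∃ i, z i = 1 := by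
  by_contra hcon
  push Not at hcon
  have h4 : ∀ i, z i ≤ 0 := by
    intro i
    have h5 := (abs_le.1 (h1 i)).2
    have h6 := hcon i
    omega
  have h5 : ∀ i ∈ (Finset.univ : Finset (Fin n)), z i = 0 :=
    (Finset.sum_eq_zero_iff_of_nonpos (fun i _ => h4 i)).1 h2
  obtain ⟨i, hi⟩ := HUL_ne h3
  exact hi (h5 i (Finset.mem_univ i))

theorem HUL (hCNT : CNT_stmt) : HUL_stmt := by
  refine ⟨?_, ?_⟩
  · intro n k U hk hU hne hdeg z _
    obtain ⟨u, hu⟩ := hne
    have hVf : ∀ i, ∀ x ∈ VD n k, flp i x ∈ VD n k := fun i x hx =>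
      hCNT.2.2.2.2.2.2.1 n k x i hx
    have hVs : ∀ i j, ∀ x ∈ VD n k, swp i j x ∈ VD n k := fun i j x hx =>
      hCNT.2.2.2.2.2.2.2 n k x i j hx
    have hflp : ∀ x ∈ U, ∀ i, flp i x ∈ U := fun x hx i =>
      hdeg x hx _ (hVf i x (hU hx)) (HUL_flp _ i (hVf i) x)
    have hswp : ∀ x ∈ U, ∀ i j, swp i j x ∈ U := by
      intro x hx i j
      refine hdeg x hx _ (hVs i j x (hU hx)) ?_
      refine HUL_deg _ (swp i j) (swp i j) ?_ ?_ ?_ (hVs i j) (hVs i j) x
      · intro y
        funext l
        simp [swp]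
      · intro y
        funext l
        simp [swp]
      · intro y y'
        rfl
    have hpos : 0 < dp u u := by
      rw [(hU hu).2.1]
      omega
    obtain ⟨i, hi⟩ := HUL_ne hpos
    have hsing : ∀ x ∈ U, ∀ j, x j ≠ 0 →
        (Pi.single j (1 : ℝ) : Fin n → ℝ) ∈ Submodule.span ℝ (cv '' U) := by
      intro x hx j hj
      have h1 : cv x - cv (flp j x) ∈ Submodule.span ℝ (cv '' U) :=
        Submodule.sub_mem _ (Submodule.subset_span ⟨x, hx, rfl⟩)
          (Submodule.subset_span ⟨_, hflp x hx j, rfl⟩)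
      have hj' : (2 * (x j : ℝ)) ≠ 0 := by
        have : (x j : ℝ) ≠ 0 := by exact_mod_cast hj
        positivity
      have h2 : (Pi.single j (1 : ℝ) : Fin n → ℝ) = (2 * (x j : ℝ))⁻¹ • (cv x - cv (flp j x)) := by
        funext l
        simp only [Pi.smul_apply, Pi.sub_apply, smul_eq_mul]
        unfold cv flp
        by_cases h : l = j
        · rw [h, Pi.single_eq_same, if_pos rfl]
          push_cast
          field_simp
          ring
        · rw [Pi.single_eq_of_ne h, if_neg h, sub_self, mul_zero]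
      rw [h2]
      exact Submodule.smul_mem _ _ h1
    have hall : ∀ j, (Pi.single j (1 : ℝ) : Fin n → ℝ) ∈ Submodule.span ℝ (cv '' U) := by
      intro j
      apply hsing (swp i j u) (hswp u hu i j) j
      unfold swp
      rw [Equiv.swap_apply_right]
      exact hi
    rw [HUL_sum (cv z)]
    exact Submodule.sum_mem _ (fun j _ => Submodule.smul_mem _ _ (hall j))
  · intro n k U hk hU hne hdeg z hz
    obtain ⟨u, hu⟩ := hne
    have hperm : ∀ x ∈ U, ∀ σ : Equiv.Perm (Fin n), (fun l => x (σ l)) ∈ U := fun x hx σ =>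
      hdeg x hx _ (VA_perm σ (hU hx)) (HUL_perm _ (fun σ x hx => VA_perm σ hx) σ x)
    have hpos : 0 < dp u u := by
      rw [(hU hu).2.2]
      omega
    obtain ⟨p, hp⟩ := HUL_one (hU hu).1 (hU hu).2.1 hpos
    obtain ⟨q, hq⟩ : ∃ q, u q = -1 := by
      have hpos' : 0 < dp (-u) (-u) := by
        have : dp (-u) (-u) = dp u u := by
          unfold dp
          apply Finset.sum_congr rfl
          intro i _
          simp
        rw [this]
        exact hpos
      obtain ⟨q, hq⟩ := HUL_one (z := -u) (fun i => by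
        rw [Pi.neg_apply, abs_neg]
        exact (hU hu).1 i) (by
        simp only [Pi.neg_apply, Finset.sum_neg_distrib]
        rw [(hU hu).2.1, neg_zero]) hpos'
      refine ⟨q, ?_⟩
      rw [Pi.neg_apply] at hq
      omega
    have hpq : p ≠ q := by
      rintro rfl
      omega
    have hdiff : ∀ a b : Fin n, (Pi.single a (1 : ℝ) - Pi.single b (1 : ℝ) : Fin n → ℝ) ∈
        Submodule.span ℝ (cv '' U) := by
      intro a b
      by_cases hab : a = b
      · rw [hab, sub_self]
        exact Submodule.zero_mem _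
      · obtain ⟨σ, h1, h2⟩ := exists_perm hab hpq
        have hx := hperm u hu σ
        have hy := hperm _ hx (Equiv.swap a b)
        have h3 : (Pi.single a (1 : ℝ) - Pi.single b (1 : ℝ) : Fin n → ℝ) =
            (1 / 2 : ℝ) • (cv (fun l => u (σ l)) -
              cv (fun l => (fun l => u (σ l)) (Equiv.swap a b l))) := by
          funext l
          change (Pi.single a (1 : ℝ) : Fin n → ℝ) l - (Pi.single b (1 : ℝ) : Fin n → ℝ) l =
            1 / 2 * ((u (σ l) : ℝ) - (u (σ (Equiv.swap a b l)) : ℝ))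
          by_cases hla : l = a
          · rw [hla, Equiv.swap_apply_left, h1, h2, hp, hq, Pi.single_eq_same,
              Pi.single_eq_of_ne hab]
            push_cast
            norm_num
          · by_cases hlb : l = b
            · rw [hlb, Equiv.swap_apply_right, h1, h2, hp, hq, Pi.single_eq_same,
                Pi.single_eq_of_ne (Ne.symm hab)]
              push_cast
              norm_num
            · rw [Equiv.swap_apply_of_ne_of_ne hla hlb, Pi.single_eq_of_ne hla,
                Pi.single_eq_of_ne hlb]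
              ring
        rw [h3]
        exact Submodule.smul_mem _ _ (Submodule.sub_mem _
          (Submodule.subset_span ⟨_, hx, rfl⟩) (Submodule.subset_span ⟨_, hy, rfl⟩))
    have hsum : ∑ j, cv z j = 0 := by
      rw [sum_cv, hz.2.1, Int.cast_zero]
    have h4 : cv z = ∑ j, cv z j • (Pi.single j (1 : ℝ) - Pi.single p (1 : ℝ) : Fin n → ℝ) := by
      simp only [smul_sub]
      rw [Finset.sum_sub_distrib, ← Finset.sum_smul, hsum, zero_smul, sub_zero]
      exact HUL_sum (cv z)
    rw [h4]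
    exact Submodule.sum_mem _ (fun j _ => Submodule.smul_mem _ _ (hdiff j p))

end Pool.Agent.SOL
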